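import Mathlib

/-!
# MP_8e4414_pr: the annealed free energy of a charged polymer exists as a limit
-/

set_option autoImplicit false

open Filter Topology Finset MeasureTheory

namespace Pool.Agent.Results.MP_8e4414_pr.FreeEnergyLimit

/-! ## A Fekete-type lemma -/

/-- the block size -/
noncomputable def BB (N : ℕ) : ℕ := ⌈(N : ℝ) ^ (3 / 4 : ℝ)⌉₊

lemma BB_ge (N : ℕ) : (N : ℝ) ^ (3 / 4 : ℝ) ≤ BB N := Nat.le_ceil _
lemma BB_le {N : ℕ} (hN : 1 ≤ N) : (BB N : ℝ) ≤ 2 * (N : ℝ) ^ (3 / 4 : ℝ) := by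
  have h1 : (1 : ℝ) ≤ (N : ℝ) ^ (3 / 4 : ℝ) :=
    Real.one_le_rpow (by exact_mod_cast hN) (by norm_num)
  have := Nat.ceil_lt_add_one (show 0 ≤ (N : ℝ) ^ (3 / 4 : ℝ) by positivity)
  unfold BB
  linarith
lemma BB_pos {N : ℕ} (hN : 1 ≤ N) : 1 ≤ BB N := by
  have h1 : (1 : ℝ) ≤ (N : ℝ) ^ (3 / 4 : ℝ) :=
    Real.one_le_rpow (by exact_mod_cast hN) (by norm_num)
  have := BB_ge N
  exact_mod_cast h1.trans this

/-- `N^2 / B^2 ≤ N^(3/4)` -/
lemma BB_sq {N : ℕ} (hN : 1 ≤ N) : (N : ℝ) ^ 2 / (BB N : ℝ) ^ 2 ≤ (N : ℝ) ^ (3 / 4 : ℝ) := by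
  have hN' : (1 : ℝ) ≤ N := by exact_mod_cast hN
  have hN0 : (0 : ℝ) < N := by linarith
  have hB : (0 : ℝ) < BB N := by exact_mod_cast BB_pos hN
  rw [div_le_iff₀ (by positivity)]
  have h1 : ((N : ℝ) ^ (3 / 4 : ℝ)) ^ 2 ≤ (BB N : ℝ) ^ 2 :=
    pow_le_pow_left₀ (by positivity) (BB_ge N) 2
  have h2 : (N : ℝ) ^ 2 ≤ (N : ℝ) ^ (3 / 4 : ℝ) * ((N : ℝ) ^ (3 / 4 : ℝ)) ^ 2 := by
    rw [← Real.rpow_natCast (N : ℝ) 2, ← Real.rpow_natCast ((N : ℝ) ^ (3 / 4 : ℝ)) 2,
      ← Real.rpow_mul hN0.le, ← Real.rpow_add hN0]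
    exact Real.rpow_le_rpow_of_exponent_le hN' (by norm_num)
  calc (N : ℝ) ^ 2 ≤ _ := h2
    _ ≤ _ := mul_le_mul_of_nonneg_left h1 (by positivity)

/-- one combination step -/
lemma comb {u : ℕ → ℝ} {K : ℕ} {C : ℝ} (hC : 0 ≤ C)
    (h1 : ∀ n m B : ℕ, 1 ≤ B → u (n + m + K * B) ≤ u n + u m + C * (B + n * m / (B : ℝ) ^ 2))
    {N n m : ℕ} (hN : 1 ≤ N) (h : n + m ≤ 2 * N) :
    u (n + m + K * BB N) ≤ u n + u m + 3 * C * (N : ℝ) ^ (3 / 4 : ℝ) := by
  have hB := BB_pos hN
  have hB' : (0 : ℝ) < BB N := by exact_mod_cast hB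
  have h2 := h1 n m (BB N) hB
  have h3 := BB_le hN
  have h4 := BB_sq hN
  have h5 : (n : ℝ) * m / (BB N : ℝ) ^ 2 ≤ (N : ℝ) ^ 2 / (BB N : ℝ) ^ 2 := by
    refine div_le_div_of_nonneg_right ?_ (by positivity)
    have h6 : ((n : ℝ) + m) ≤ 2 * N := by exact_mod_cast h
    nlinarith [sq_nonneg ((n : ℝ) - m), (Nat.cast_nonneg n : (0 : ℝ) ≤ n),
      (Nat.cast_nonneg m : (0 : ℝ) ≤ m)]
  nlinarith

/-- the dyadic lengths -/
noncomputable def LL (K n : ℕ) : ℕ → ℕ
  | 0 => n
  | j + 1 => LL K n j + LL K n j + K * BB (LL K n j)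

lemma LL_ge (K n j : ℕ) : 2 ^ j * n ≤ LL K n j := by
  induction j with
  | zero => simp [LL]
  | succ j ih =>
    rw [LL, pow_succ]
    nlinarith [Nat.zero_le (K * BB (LL K n j))]

lemma LL_pos {K n : ℕ} (hn : 1 ≤ n) (j : ℕ) : 1 ≤ LL K n j := by
  have := LL_ge K n j
  have h2 : 1 ≤ 2 ^ j * n := Nat.one_le_iff_ne_zero.2 (by positivity)
  omega

lemma LL_ratio {u : ℕ → ℝ} {K : ℕ} {C : ℝ} (hC : 0 ≤ C) (hu : ∀ n, 0 ≤ u n)
    (h1 : ∀ n m B : ℕ, 1 ≤ B → u (n + m + K * B) ≤ u n + u m + C * (B + n * m / (B : ℝ) ^ 2))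
    {n : ℕ} (hn : 1 ≤ n) (j : ℕ) :
    u (LL K n j) / LL K n j ≤ u n / n + 3 * C * (n : ℝ) ^ (-(1 / 4) : ℝ) *
      ∑ i ∈ range j, ((2 : ℝ) ^ (-(1 / 4) : ℝ)) ^ i := by
  induction j with
  | zero => simp [LL]
  | succ j ih =>
    set L := LL K n j with hL
    have hL1 : 1 ≤ L := LL_pos hn j
    have hL' : (0 : ℝ) < L := by exact_mod_cast hL1
    have h2 := comb hC h1 (N := L) (n := L) (m := L) hL1 (by omega)
    have h3 : LL K n (j + 1) = L + L + K * BB L := rfl
    have h4 : (2 : ℝ) * L ≤ (LL K n (j + 1) : ℕ) := by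
      rw [h3]; push_cast
      have : (0 : ℝ) ≤ (K : ℝ) * BB L := by positivity
      linarith
    have hpos : (0 : ℝ) < (LL K n (j + 1) : ℕ) := by linarith
    have h5 : u (LL K n (j + 1)) / (LL K n (j + 1) : ℕ) ≤
        (2 * u L + 3 * C * (L : ℝ) ^ (3 / 4 : ℝ)) / (2 * L) := by
      rw [h3]
      rw [h3] at h4 hpos
      have h6 : 0 ≤ 2 * u L + 3 * C * (L : ℝ) ^ (3 / 4 : ℝ) := by
        have := hu L
        positivity
      calc u (L + L + K * BB L) / (L + L + K * BB L : ℕ)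
          ≤ (2 * u L + 3 * C * (L : ℝ) ^ (3 / 4 : ℝ)) / (L + L + K * BB L : ℕ) :=
            div_le_div_of_nonneg_right (by linarith) hpos.le
        _ ≤ _ := div_le_div_of_nonneg_left h6 (by positivity) h4
    have h7 : (2 * u L + 3 * C * (L : ℝ) ^ (3 / 4 : ℝ)) / (2 * L) =
        u L / L + 3 * C / 2 * (L : ℝ) ^ (-(1 / 4) : ℝ) := by
      have h8 : (L : ℝ) ^ (3 / 4 : ℝ) = L * (L : ℝ) ^ (-(1 / 4) : ℝ) := by
        nth_rewrite 2 [← Real.rpow_one (L : ℝ)]
        rw [← Real.rpow_add hL']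
        norm_num
      rw [h8]
      field_simp
    have h9 : (L : ℝ) ^ (-(1 / 4) : ℝ) ≤ (n : ℝ) ^ (-(1 / 4) : ℝ) * ((2 : ℝ) ^ (-(1 / 4) : ℝ)) ^ j := by
      have h10 : ((2 : ℝ) ^ j * n) ≤ L := by exact_mod_cast LL_ge K n j
      have hn' : (0 : ℝ) < n := by exact_mod_cast hn
      have h11 : (L : ℝ) ^ (-(1 / 4) : ℝ) ≤ ((2 : ℝ) ^ j * n) ^ (-(1 / 4) : ℝ) :=
        Real.rpow_le_rpow_of_nonpos (by positivity) h10 (by norm_num)
      refine h11.trans (le_of_eq ?_)
      rw [Real.mul_rpow (by positivity) hn'.le, mul_comm, ← Real.rpow_natCast, ← Real.rpow_natCast,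
        ← Real.rpow_mul (by norm_num), ← Real.rpow_mul (by norm_num)]
      congr 2
      ring
    rw [Finset.sum_range_succ, mul_add]
    have h12 : 3 * C / 2 * (L : ℝ) ^ (-(1 / 4) : ℝ) ≤
        3 * C * (n : ℝ) ^ (-(1 / 4) : ℝ) * ((2 : ℝ) ^ (-(1 / 4) : ℝ)) ^ j := by
      have h13 : 0 ≤ (n : ℝ) ^ (-(1 / 4) : ℝ) * ((2 : ℝ) ^ (-(1 / 4) : ℝ)) ^ j := by positivity
      nlinarith [mul_le_mul_of_nonneg_left h9 hC]
    linarith

/-- the geometric constant -/
lemma geo (j : ℕ) : ∑ i ∈ range j, ((2 : ℝ) ^ (-(1 / 4) : ℝ)) ^ i ≤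
    (1 - (2 : ℝ) ^ (-(1 / 4) : ℝ))⁻¹ := by
  have h0 : 0 ≤ (2 : ℝ) ^ (-(1 / 4) : ℝ) := by positivity
  have h1 : (2 : ℝ) ^ (-(1 / 4) : ℝ) < 1 := Real.rpow_lt_one_of_one_lt_of_neg (by norm_num) (by norm_num)
  rw [← tsum_geometric_of_lt_one h0 h1]
  exact (summable_geometric_of_lt_one h0 h1).sum_le_tsum _ (fun i _ => by positivity)

/-- **Fekete-type lemma.** -/
theorem fekete {u : ℕ → ℝ} {K : ℕ} {C : ℝ} (hC : 0 < C) (hu : ∀ n, 0 ≤ u n)
    (hu2 : ∀ n, u n ≤ C * n)
    (h1 : ∀ n m B : ℕ, 1 ≤ B → u (n + m + K * B) ≤ u n + u m + C * (B + n * m / (B : ℝ) ^ 2)) :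
    ∃ l : ℝ, Tendsto (fun n => u n / n) atTop (𝓝 l) := by
  set v : ℕ → ℝ := fun n => u n / n with hv
  have hv0 : ∀ n, 0 ≤ v n := fun n => div_nonneg (hu n) (Nat.cast_nonneg n)
  have hvC : ∀ n, v n ≤ C := by
    intro n
    rcases Nat.eq_zero_or_pos n with h | h
    · subst h; simp [hv, hC.le]
    · have : (0 : ℝ) < n := by exact_mod_cast h
      rw [hv]; simp only
      rw [div_le_iff₀ this]; exact hu2 n
  have hbdd : IsBoundedUnder (· ≤ ·) atTop v := isBoundedUnder_of ⟨C, hvC⟩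
  have hbdd' : IsBoundedUnder (· ≥ ·) atTop v := isBoundedUnder_of ⟨0, hv0⟩
  set ρ := liminf v atTop with hρ
  refine ⟨ρ, tendsto_of_le_liminf_of_limsup_le le_rfl ?_ hbdd hbdd'⟩
  refine le_of_forall_pos_le_add fun ε hε => ?_
  -- choose the base
  have hfreq : ∃ᶠ n in atTop, v n < ρ + ε / 4 :=
    frequently_lt_of_liminf_lt (hbdd.isCoboundedUnder_ge) (by linarith)
  set D := (1 - (2 : ℝ) ^ (-(1 / 4) : ℝ))⁻¹ with hD
  have hlim1 : Tendsto (fun n : ℕ => 3 * C * (n : ℝ) ^ (-(1 / 4) : ℝ) * D) atTop (𝓝 0) := by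
    have := (tendsto_rpow_neg_atTop (show (0 : ℝ) < 1 / 4 by norm_num)).comp
      (tendsto_natCast_atTop_atTop (R := ℝ))
    have h2 := (this.const_mul (3 * C)).mul_const D
    simpa using h2
  have hlim2 : Tendsto (fun n : ℕ => 2 * (K : ℝ) * (n : ℝ) ^ (-(1 / 4) : ℝ)) atTop (𝓝 0) := by
    have := (tendsto_rpow_neg_atTop (show (0 : ℝ) < 1 / 4 by norm_num)).comp
      (tendsto_natCast_atTop_atTop (R := ℝ))
    have h2 := (this.const_mul (2 * (K : ℝ)))
    simpa using h2
  have hev := (hlim1.eventually (gt_mem_nhds (show (0 : ℝ) < ε / 4 by positivity))).and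
    ((hlim2.eventually (gt_mem_nhds (show (0 : ℝ) < 1 / 6 by norm_num))).and
      (eventually_ge_atTop 1))
  obtain ⟨n, hn1, hn2, hn0⟩ : ∃ n : ℕ, v n < ρ + ε / 4 ∧
      (∀ m ≥ n, 3 * C * (m : ℝ) ^ (-(1 / 4) : ℝ) * D < ε / 4 ∧
        2 * (K : ℝ) * (m : ℝ) ^ (-(1 / 4) : ℝ) < 1 / 6) ∧ 1 ≤ n := by
    obtain ⟨n0, h0⟩ := eventually_atTop.1 hev
    obtain ⟨n, hn, h⟩ := (frequently_atTop.1 hfreq) (max n0 1)
    exact ⟨n, h, fun m hm => ⟨(h0 m ((le_max_left _ _).trans (hn.trans hm))).1,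
      (h0 m ((le_max_left _ _).trans (hn.trans hm))).2.1⟩, (le_max_right _ _).trans hn⟩
  set σ := ρ + ε / 2 with hσ
  have hLu : ∀ j, u (LL K n j) ≤ σ * LL K n j := by
    intro j
    have h2 := LL_ratio hC.le hu h1 hn0 j
    have h3 : 3 * C * (n : ℝ) ^ (-(1 / 4) : ℝ) * ∑ i ∈ range j, ((2 : ℝ) ^ (-(1 / 4) : ℝ)) ^ i ≤
        3 * C * (n : ℝ) ^ (-(1 / 4) : ℝ) * D := mul_le_mul_of_nonneg_left (geo j) (by positivity)
    have h4 := (hn2 n le_rfl).1
    have h5 : (0 : ℝ) < LL K n j := by exact_mod_cast LL_pos hn0 j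
    rw [div_le_iff₀ h5] at h2
    refine h2.trans (mul_le_mul_of_nonneg_right ?_ h5.le)
    have h6 : u n / n < ρ + ε / 4 := hn1
    linarith
  have hσ0 : 0 ≤ σ := by
    have : 0 ≤ ρ := le_liminf_of_le (hbdd.isCoboundedUnder_ge) (Eventually.of_forall hv0)
    linarith
  -- `K B_N ≤ N/6` for `N ≥ n`
  have hKB : ∀ N : ℕ, n ≤ N → (K : ℝ) * BB N ≤ N / 6 := by
    intro N hN
    have hN1 : 1 ≤ N := hn0.trans hN
    have hN' : (0 : ℝ) < N := by exact_mod_cast hN1
    have h2 := BB_le hN1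
    have h3 := (hn2 N hN).2
    have h4 : (N : ℝ) ^ (3 / 4 : ℝ) = N * (N : ℝ) ^ (-(1 / 4) : ℝ) := by
      nth_rewrite 2 [← Real.rpow_one (N : ℝ)]
      rw [← Real.rpow_add hN']
      norm_num
    rw [h4] at h2
    have h5 : (K : ℝ) * BB N ≤ K * (2 * (N * (N : ℝ) ^ (-(1 / 4) : ℝ))) :=
      mul_le_mul_of_nonneg_left h2 (Nat.cast_nonneg K)
    nlinarith
  -- a dyadic length comparable to `N`
  have hLj : ∀ N : ℕ, 2 * n ≤ N → ∃ j, 2 * LL K n j ≤ N ∧ N ≤ 6 * LL K n j := by
    intro N hN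
    have hex : ∃ j, N < 2 * LL K n j := by
      refine ⟨N, ?_⟩
      have h2 := LL_ge K n N
      have h3 : N < 2 ^ N := Nat.lt_two_pow_self
      nlinarith
    classical
    set j0 := Nat.find hex with hj0
    have h2 : N < 2 * LL K n j0 := Nat.find_spec hex
    rcases hj : j0 with _ | j
    · rw [hj] at h2
      simp only [LL] at h2
      omega
    · refine ⟨j, not_lt.1 (Nat.find_min hex (by rw [← hj0, hj]; exact Nat.lt_succ_self j)), ?_⟩
      rw [hj, LL] at h2
      have h3 := hKB (LL K n j) (by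
        have := LL_ge K n j
        have h4 : 1 ≤ 2 ^ j := Nat.one_le_two_pow
        nlinarith)
      have h4 : (6 : ℝ) * (K * BB (LL K n j) : ℕ) ≤ LL K n j := by push_cast; linarith
      have h5 : 6 * (K * BB (LL K n j)) ≤ LL K n j := by exact_mod_cast h4
      omega
  -- the induction
  set θ := (5 / 6 : ℝ) ^ (3 / 4 : ℝ) with hθ
  have hθ1 : θ < 1 := Real.rpow_lt_one (by norm_num) (by norm_num) (by norm_num)
  have hθ0 : 0 ≤ θ := by positivity
  set A := 3 * C / (1 - θ) with hA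
  have hA0 : 0 ≤ A := div_nonneg (by positivity) (by linarith)
  have hAeq : A * θ + 3 * C = A := by
    rw [hA]
    have : 1 - θ ≠ 0 := by linarith
    field_simp
    ring
  have hmain : ∀ N : ℕ, u N ≤ σ * N + A * (N : ℝ) ^ (3 / 4 : ℝ) + C * (2 * n) := by
    intro N
    induction N using Nat.strong_induction_on with
    | _ N ih =>
      rcases lt_or_ge N (2 * n) with h | h
      · have h2 := hu2 N
        have h3 : (N : ℝ) ≤ 2 * n := by exact_mod_cast h.le
        have h4 : 0 ≤ σ * N := by positivity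
        have h5 : 0 ≤ A * (N : ℝ) ^ (3 / 4 : ℝ) := by positivity
        nlinarith
      · obtain ⟨j, hj1, hj2⟩ := hLj N h
        have hN1 : 1 ≤ N := by omega
        set L := LL K n j with hL
        have hKN := hKB N (by omega)
        have hKN' : 6 * (K * BB N) ≤ N := by
          have : (6 : ℝ) * (K * BB N : ℕ) ≤ N := by push_cast; linarith
          exact_mod_cast this
        obtain ⟨m, hm⟩ : ∃ m, L + m + K * BB N = N := ⟨N - L - K * BB N, by omega⟩
        have h2 := comb hC.le h1 (N := N) (n := L) (m := m) hN1 (by omega)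
        rw [hm] at h2
        have h3 := ih m (by omega)
        have h4 := hLu j
        rw [← hL] at h4
        have h5 : (m : ℝ) ≤ 5 / 6 * N := by
          have : (6 * m : ℕ) ≤ 5 * N := by omega
          have h6 : (6 : ℝ) * m ≤ 5 * N := by exact_mod_cast this
          linarith
        have h6 : (m : ℝ) ^ (3 / 4 : ℝ) ≤ θ * (N : ℝ) ^ (3 / 4 : ℝ) := by
          rw [hθ, ← Real.mul_rpow (by norm_num) (Nat.cast_nonneg N)]
          exact Real.rpow_le_rpow (Nat.cast_nonneg m) h5 (by norm_num)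
        have h7 : (L : ℝ) + m ≤ N := by
          have : L + m ≤ N := by omega
          exact_mod_cast this
        have h8 := mul_le_mul_of_nonneg_left h6 hA0
        have h9 := mul_le_mul_of_nonneg_left h7 hσ0
        have h10 : A * (N : ℝ) ^ (3 / 4 : ℝ) = (A * θ + 3 * C) * (N : ℝ) ^ (3 / 4 : ℝ) := by
          rw [hAeq]
        rw [h10]
        linarith
  -- conclusion
  have hfin : Tendsto (fun N : ℕ => σ + (A * (N : ℝ) ^ (-(1 / 4) : ℝ) + C * (2 * n) / N)) atTop
      (𝓝 (σ + (A * 0 + 0))) := by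
    have h2 := (tendsto_rpow_neg_atTop (show (0 : ℝ) < 1 / 4 by norm_num)).comp
      (tendsto_natCast_atTop_atTop (R := ℝ))
    have h3 : Tendsto (fun N : ℕ => C * (2 * n) / (N : ℝ)) atTop (𝓝 0) :=
      tendsto_const_nhds.div_atTop tendsto_natCast_atTop_atTop
    exact tendsto_const_nhds.add ((h2.const_mul A).add h3)
  rw [mul_zero, add_zero, add_zero] at hfin
  have hle : limsup v atTop ≤ σ := by
    rw [← hfin.limsup_eq]
    refine limsup_le_limsup ?_ hbdd'.isCoboundedUnder_le hfin.isBoundedUnder_le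
    filter_upwards [eventually_ge_atTop 1] with N hN
    have hN' : (0 : ℝ) < N := by exact_mod_cast hN
    rw [hv]
    simp only
    rw [div_le_iff₀ hN']
    have h4 : (N : ℝ) ^ (3 / 4 : ℝ) = N * (N : ℝ) ^ (-(1 / 4) : ℝ) := by
      nth_rewrite 2 [← Real.rpow_one (N : ℝ)]
      rw [← Real.rpow_add hN']
      norm_num
    have h5 := hmain N
    rw [h4] at h5
    have h6 : (σ + (A * (N : ℝ) ^ (-(1 / 4) : ℝ) + C * (2 * n) / N)) * N =
        σ * N + A * (N * (N : ℝ) ^ (-(1 / 4) : ℝ)) + C * (2 * n) := by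
      field_simp
      ring
    rw [h6]; exact h5
  linarith

/-! ## Walks and the key super-multiplicativity -/

/-- the `2d` unit steps, as pairs (direction, sign) -/
abbrev Step (d : ℕ) : Type := Fin d × Bool

/-- the vector of a step -/
def vec {d : ℕ} (a : Step d) : Fin d → ℤ := if a.2 then Pi.single a.1 1 else -Pi.single a.1 1

/-- the walk `S_i` driven by the steps `s` -/
def S {d n : ℕ} (s : Fin n → Step d) (i : ℕ) : Fin d → ℤ :=
  ∑ j : Fin n, if (j : ℕ) < i then vec (s j) else 0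

/-- the local time `ℓ_n(x)` -/
def ell {d n : ℕ} (s : Fin n → Step d) (x : Fin d → ℤ) : ℕ :=
  ((range n).filter fun i => S s (i + 1) = x).card

/-- the weight of a path -/
noncomputable def W {d n : ℕ} (g : ℕ → ℝ) (s : Fin n → Step d) : ℝ := ∏ᶠ x, g (ell s x)

/-- the partition function `E[∏_x g(ℓ_n(x))]` -/
noncomputable def Zg (g : ℕ → ℝ) (d n : ℕ) : ℝ := (∑ s : Fin n → Step d, W g s) / (2 * d) ^ n

lemma S_append_left {d n m : ℕ} (s : Fin n → Step d) (t : Fin m → Step d) {i : ℕ} (hi : i ≤ n) :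
    S (Fin.append s t) i = S s i := by
  unfold S
  rw [Fin.sum_univ_add]
  simp only [Fin.append_left, Fin.append_right, Fin.val_castAdd, Fin.val_natAdd]
  rw [add_eq_left]
  refine Finset.sum_eq_zero fun j _ => ?_
  rw [if_neg (by omega)]

lemma S_append_right {d n m : ℕ} (s : Fin n → Step d) (t : Fin m → Step d) (i : ℕ) :
    S (Fin.append s t) (n + i) = S s n + S t i := by
  unfold S
  rw [Fin.sum_univ_add]
  simp only [Fin.append_left, Fin.append_right, Fin.val_castAdd, Fin.val_natAdd]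
  congr 1
  · refine Finset.sum_congr rfl fun j _ => ?_
    rw [if_pos (by have := j.2; omega), if_pos j.2]
  · refine Finset.sum_congr rfl fun j _ => ?_
    simp only [Nat.add_lt_add_iff_left]

lemma ell_eq_sum {d n : ℕ} (s : Fin n → Step d) (x : Fin d → ℤ) :
    ell s x = ∑ i ∈ range n, if S s (i + 1) = x then 1 else 0 := by
  unfold ell
  rw [Finset.card_filter]

lemma ell_append {d n m : ℕ} (s : Fin n → Step d) (t : Fin m → Step d) (x : Fin d → ℤ) :
    ell (Fin.append s t) x = ell s x + ell t (x - S s n) := by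
  rw [ell_eq_sum, ell_eq_sum, ell_eq_sum, Finset.sum_range_add]
  congr 1
  · refine Finset.sum_congr rfl fun i hi => ?_
    rw [Finset.mem_range] at hi
    rw [S_append_left s t (by omega)]
  · refine Finset.sum_congr rfl fun i hi => ?_
    rw [add_assoc, S_append_right]
    congr 1
    rw [eq_iff_iff]
    constructor
    · intro h; rw [← h]; abel
    · intro h; rw [h]; abel

/-- the range of the walk -/
def rng {d n : ℕ} (s : Fin n → Step d) : Finset (Fin d → ℤ) := (range n).image fun i => S s (i + 1)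

lemma rng_card {d n : ℕ} (s : Fin n → Step d) : (rng s).card ≤ n := by
  unfold rng
  exact Finset.card_image_le.trans (by simp)

lemma ell_pos_iff {d n : ℕ} (s : Fin n → Step d) (x : Fin d → ℤ) : 0 < ell s x ↔ x ∈ rng s := by
  unfold ell rng
  rw [Finset.card_pos, Finset.filter_nonempty_iff, Finset.mem_image]

lemma ell_zero {d n : ℕ} (s : Fin n → Step d) {x : Fin d → ℤ} (hx : x ∉ rng s) : ell s x = 0 := by
  rw [← ell_pos_iff] at hx
  omega

lemma sum_ell {d n : ℕ} (s : Fin n → Step d) (F : Finset (Fin d → ℤ)) : ∑ x ∈ F, ell s x ≤ n := by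
  simp only [ell_eq_sum]
  rw [Finset.sum_comm]
  calc ∑ i ∈ range n, ∑ x ∈ F, (if S s (i + 1) = x then 1 else 0) ≤ ∑ i ∈ range n, 1 := by
        refine Finset.sum_le_sum fun i _ => ?_
        rw [Finset.sum_ite_eq]
        split_ifs <;> norm_num
    _ = n := by simp

lemma W_eq {d n : ℕ} {g : ℕ → ℝ} (hg0 : g 0 = 1) (s : Fin n → Step d)
    {F : Finset (Fin d → ℤ)} (hF : rng s ⊆ F) : W g s = ∏ x ∈ F, g (ell s x) := by
  unfold W
  refine finprod_eq_prod_of_mulSupport_subset _ fun x hx => ?_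
  rw [Function.mem_mulSupport] at hx
  refine hF ?_
  by_contra h
  rw [ell_zero s h, hg0] at hx
  exact hx rfl

lemma W_shift {d n : ℕ} {g : ℕ → ℝ} (hg0 : g 0 = 1) (s : Fin n → Step d) (p : Fin d → ℤ)
    {F : Finset (Fin d → ℤ)} (hF : (rng s).image (fun x => x + p) ⊆ F) :
    W g s = ∏ x ∈ F, g (ell s (x - p)) := by
  rw [W_eq hg0 s (F := (F.image fun x => x - p))]
  · rw [Finset.prod_image]
    intro x _ y _ h
    simpa using h
  · intro x hx
    rw [Finset.mem_image]
    refine ⟨x + p, hF (Finset.mem_image_of_mem _ hx), by simp⟩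

/-- hypotheses on `g` -/
structure Good (g : ℕ → ℝ) (c : ℝ) : Prop where
  zero : g 0 = 1
  le_one : ∀ l, g l ≤ 1
  pos : ∀ l, 0 < g l
  step : ∀ l, c * g l ≤ g (l + 1)
  cpos : 0 < c
  cle : c ≤ 1

lemma Good.pow {g : ℕ → ℝ} {c : ℝ} (h : Good g c) (l k : ℕ) : c ^ k * g l ≤ g (l + k) := by
  induction k with
  | zero => simp
  | succ k ih =>
    calc c ^ (k + 1) * g l = c * (c ^ k * g l) := by ring
      _ ≤ c * g (l + k) := mul_le_mul_of_nonneg_left ih h.cpos.le
      _ ≤ g (l + k + 1) := h.step _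

lemma Good.three {g : ℕ → ℝ} {c : ℝ} (h : Good g c) (a κ b : ℕ) :
    c ^ (κ + (if 0 < a then b else 0)) * (g a * g b) ≤ g (a + κ + b) := by
  have h0 : g (a + κ + b) = g (a + b + κ) := by congr 1; ring
  rw [h0]
  refine le_trans ?_ (h.pow (a + b) κ)
  rw [pow_add, mul_assoc]
  refine mul_le_mul_of_nonneg_left ?_ (pow_nonneg h.cpos.le _)
  split_ifs with ha
  · calc c ^ b * (g a * g b) ≤ c ^ b * (g a * 1) := by
          refine mul_le_mul_of_nonneg_left ?_ (pow_nonneg h.cpos.le _)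
          exact mul_le_mul_of_nonneg_left (h.le_one b) (h.pos a).le
      _ ≤ g (a + b) := by rw [mul_one]; exact h.pow a b
  · have : a = 0 := by omega
    subst this
    rw [h.zero, pow_zero, zero_add]
    linarith

lemma W_pos {d n : ℕ} {g : ℕ → ℝ} {c : ℝ} (h : Good g c) (s : Fin n → Step d) : 0 < W g s := by
  rw [W_eq h.zero s (Finset.Subset.refl _)]
  exact Finset.prod_pos fun x _ => h.pos _

lemma W_le_one {d n : ℕ} {g : ℕ → ℝ} {c : ℝ} (h : Good g c) (s : Fin n → Step d) : W g s ≤ 1 := by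
  rw [W_eq h.zero s (Finset.Subset.refl _)]
  exact Finset.prod_le_one (fun x _ => (h.pos _).le) fun x _ => h.le_one _

lemma W_ge {d n : ℕ} {g : ℕ → ℝ} {c : ℝ} (h : Good g c) (s : Fin n → Step d) : c ^ n ≤ W g s := by
  rw [W_eq h.zero s (Finset.Subset.refl _)]
  have h1 : ∏ x ∈ rng s, c ^ ell s x ≤ ∏ x ∈ rng s, g (ell s x) := by
    refine Finset.prod_le_prod (fun x _ => pow_nonneg h.cpos.le _) fun x _ => ?_
    have := h.pow 0 (ell s x)
    rw [h.zero, mul_one, zero_add] at this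
    exact this
  refine le_trans ?_ h1
  rw [Finset.prod_pow_eq_pow_sum]
  exact pow_le_pow_of_le_one h.cpos.le h.cle (sum_ell s _)

/-- the overlap of a walk `s` and a walk `t` started at `p` -/
def ovl {d n m : ℕ} (s : Fin n → Step d) (t : Fin m → Step d) (p : Fin d → ℤ) : ℕ :=
  ∑ x ∈ rng s, ell t (x - p)

lemma W_triple {d n k m : ℕ} {g : ℕ → ℝ} {c : ℝ} (h : Good g c) (s : Fin n → Step d)
    (r : Fin k → Step d) (t : Fin m → Step d) :
    c ^ (k + ovl s t (S s n + S r k)) * (W g s * W g t) ≤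
      W g (Fin.append (Fin.append s r) t) := by
  classical
  set p := S s n + S r k with hp
  set u := Fin.append (Fin.append s r) t with hu
  have hS : S (Fin.append s r) (n + k) = p := S_append_right s r k
  have hell : ∀ x, ell u x = ell s x + ell r (x - S s n) + ell t (x - p) := by
    intro x
    rw [hu, ell_append, ell_append, hS]
  set F := rng s ∪ (rng t).image (fun x => x + p) ∪ rng u with hF
  have hF1 : rng s ⊆ F := fun x hx => by
    rw [hF]; exact Finset.mem_union_left _ (Finset.mem_union_left _ hx)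
  have hF2 : (rng t).image (fun x => x + p) ⊆ F := fun x hx => by
    rw [hF]; exact Finset.mem_union_left _ (Finset.mem_union_right _ hx)
  have hF3 : rng u ⊆ F := fun x hx => by rw [hF]; exact Finset.mem_union_right _ hx
  rw [W_eq h.zero s hF1, W_shift h.zero t p hF2, W_eq h.zero u hF3, ← Finset.prod_mul_distrib]
  have h1 : c ^ (k + ovl s t p) ≤
      ∏ x ∈ F, c ^ (ell r (x - S s n) + (if 0 < ell s x then ell t (x - p) else 0)) := by
    rw [Finset.prod_pow_eq_pow_sum]
    refine pow_le_pow_of_le_one h.cpos.le h.cle ?_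
    rw [Finset.sum_add_distrib]
    refine add_le_add ?_ ?_
    · have h2 : ∑ x ∈ F, ell r (x - S s n) = ∑ x ∈ F.image (fun x => x - S s n), ell r x := by
        rw [Finset.sum_image]
        intro x _ y _ hxy
        simpa using hxy
      rw [h2]
      exact sum_ell r _
    · unfold ovl
      rw [← Finset.sum_filter]
      refine Finset.sum_le_sum_of_subset fun x hx => ?_
      rw [Finset.mem_filter] at hx
      exact (ell_pos_iff s x).1 hx.2
  calc c ^ (k + ovl s t p) * ∏ x ∈ F, g (ell s x) * g (ell t (x - p))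
      ≤ (∏ x ∈ F, c ^ (ell r (x - S s n) + (if 0 < ell s x then ell t (x - p) else 0))) *
        ∏ x ∈ F, g (ell s x) * g (ell t (x - p)) := by
        refine mul_le_mul_of_nonneg_right h1 (Finset.prod_nonneg fun x _ => ?_)
        exact mul_nonneg (h.pos _).le (h.pos _).le
    _ = ∏ x ∈ F, c ^ (ell r (x - S s n) + (if 0 < ell s x then ell t (x - p) else 0)) *
        (g (ell s x) * g (ell t (x - p))) := by rw [← Finset.prod_mul_distrib]
    _ ≤ ∏ x ∈ F, g (ell u x) := by
        refine Finset.prod_le_prod (fun x _ => ?_) fun x _ => ?_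
        · exact mul_nonneg (pow_nonneg h.cpos.le _) (mul_nonneg (h.pos _).le (h.pos _).le)
        · rw [hell]
          exact h.three _ _ _

/-- the shifts -/
def box (d B : ℕ) : Finset (Fin d → ℕ) := Fintype.piFinset fun _ => range B

lemma box_card (d B : ℕ) : (box d B).card = B ^ d := by
  unfold box
  rw [Fintype.card_piFinset]
  simp

/-- a good shift exists -/
lemma exists_shift {d n m : ℕ} (s : Fin n → Step d) (t : Fin m → Step d) {B : ℕ} (hB : 1 ≤ B) :
    ∃ w ∈ box d B, ovl s t (S s n + fun i => 2 * (w i : ℤ)) * B ^ d ≤ n * m := by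
  by_contra hcon
  push Not at hcon
  have h1 : ∑ w ∈ box d B, ovl s t (S s n + fun i => 2 * (w i : ℤ)) ≤ n * m := by
    unfold ovl
    rw [Finset.sum_comm]
    calc ∑ x ∈ rng s, ∑ w ∈ box d B, ell t (x - (S s n + fun i => 2 * (w i : ℤ)))
        ≤ ∑ x ∈ rng s, m := by
          refine Finset.sum_le_sum fun x _ => ?_
          have h2 : ∑ w ∈ box d B, ell t (x - (S s n + fun i => 2 * (w i : ℤ))) =
              ∑ y ∈ (box d B).image (fun w => x - (S s n + fun i => 2 * (w i : ℤ))), ell t y := by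
            rw [Finset.sum_image]
            intro w _ w' _ hww
            funext i
            have h3 := congrFun hww i
            simp only [Pi.sub_apply, Pi.add_apply] at h3
            omega
          rw [h2]
          exact sum_ell t _
      _ = (rng s).card * m := by simp
      _ ≤ n * m := Nat.mul_le_mul_right _ (rng_card s)
  have h2 : ∑ w ∈ box d B, n * m < ∑ w ∈ box d B,
      ovl s t (S s n + fun i => 2 * (w i : ℤ)) * B ^ d := by
    refine Finset.sum_lt_sum_of_nonempty ?_ fun w hw => hcon w hw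
    rw [← Finset.card_pos, box_card]
    positivity
  have e1 : ∑ w ∈ box d B, n * m = n * m * B ^ d := by
    rw [Finset.sum_const, box_card, smul_eq_mul, mul_comm]
  rw [e1, ← Finset.sum_mul] at h2
  have h3 := Nat.mul_le_mul_right (B ^ d) h1
  exact absurd h2 (not_lt.2 h3)

/-- connecting paths -/
lemma exists_conn {d B : ℕ} {w : Fin d → ℕ} (hw : w ∈ box d B) :
    ∃ r : Fin (d * (2 * B)) → Step d, S r (d * (2 * B)) = fun i => 2 * (w i : ℤ) := by
  have hwB : ∀ i, w i < B := fun i => by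
    have := Fintype.mem_piFinset.1 hw i
    simpa using this
  refine ⟨fun t => ((finProdFinEquiv.symm t).1,
    decide (((finProdFinEquiv.symm t).2 : ℕ) < B + w (finProdFinEquiv.symm t).1)), ?_⟩
  unfold S
  have h1 : ∀ j : Fin (d * (2 * B)), (if (j : ℕ) < d * (2 * B) then vec
      (((finProdFinEquiv.symm j).1, decide (((finProdFinEquiv.symm j).2 : ℕ) < B +
        w (finProdFinEquiv.symm j).1)) : Step d) else 0) = vec
      (((finProdFinEquiv.symm j).1, decide (((finProdFinEquiv.symm j).2 : ℕ) < B +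
        w (finProdFinEquiv.symm j).1)) : Step d) := fun j => if_pos j.2
  rw [Finset.sum_congr rfl fun j _ => h1 j]
  rw [← Equiv.sum_comp finProdFinEquiv]
  simp only [Equiv.symm_apply_apply]
  rw [Fintype.sum_prod_type]
  have h2 : ∀ i : Fin d, ∑ j : Fin (2 * B), vec ((i, decide ((j : ℕ) < B + w i)) : Step d)
      = Pi.single i (2 * (w i : ℤ)) := by
    intro i
    have h3 : ∀ j : Fin (2 * B), vec ((i, decide ((j : ℕ) < B + w i)) : Step d) =
        Pi.single i (if (j : ℕ) < B + w i then (1 : ℤ) else -1) := by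
      intro j
      unfold vec
      by_cases h : (j : ℕ) < B + w i
      · simp [h]
      · simp only [h, decide_false, Bool.false_eq_true, if_false]
        rw [← Pi.single_neg]
    simp only [h3]
    have h4 : ∑ j : Fin (2 * B), (if (j : ℕ) < B + w i then (1 : ℤ) else -1) = 2 * (w i : ℤ) := by
      rw [Fin.sum_univ_eq_sum_range (fun j => if j < B + w i then (1 : ℤ) else -1) (2 * B)]
      have h5 : 2 * B = (B + w i) + (B - w i) := by have := hwB i; omega
      rw [h5, Finset.sum_range_add]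
      rw [Finset.sum_congr rfl (g := fun _ => (1 : ℤ)) (fun j hj => if_pos (Finset.mem_range.1 hj)),
        Finset.sum_congr rfl (g := fun _ => (-1 : ℤ)) (fun j hj => if_neg (by omega))]
      simp only [Finset.sum_const, Finset.card_range, nsmul_eq_mul]
      have := hwB i
      push_cast [Nat.cast_sub this.le]
      ring
    rw [← h4, ← Finset.sum_congr rfl (fun j _ => rfl)]
    funext x
    rw [Finset.sum_apply]
    by_cases hx : x = i
    · subst hx; simp
    · simp [hx]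
  simp only [h2]
  funext x
  rw [Finset.sum_apply, Finset.sum_eq_single x]
  · simp
  · intro i _ hi
    simp [hi.symm]
  · simp

lemma append_inj {d n k : ℕ} {s s' : Fin n → Step d} {r r' : Fin k → Step d}
    (h : Fin.append s r = Fin.append s' r') : s = s' := by
  funext i
  have := congrFun h (Fin.castAdd k i)
  rwa [Fin.append_left, Fin.append_left] at this

lemma append_inj' {d n k : ℕ} {s s' : Fin n → Step d} {r r' : Fin k → Step d}
    (h : Fin.append s r = Fin.append s' r') : r = r' := by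
  funext i
  have := congrFun h (Fin.natAdd n i)
  rwa [Fin.append_right, Fin.append_right] at this

/-- the key super-multiplicativity -/
lemma Z_super {d : ℕ} (hd : 2 ≤ d) {g : ℕ → ℝ} {c : ℝ} (h : Good g c) (n m : ℕ) {B : ℕ}
    (hB : 1 ≤ B) :
    Real.exp (-(-Real.log c * (d * (2 * B) + n * m / (B : ℝ) ^ 2))) * (2 * d : ℝ)⁻¹ ^ (d * (2 * B))
      * (Zg g d n * Zg g d m) ≤ Zg g d (n + d * (2 * B) + m) := by
  classical
  set k := d * (2 * B) with hk
  have hB' : (0 : ℝ) < B := by exact_mod_cast hB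
  have hB1 : (1 : ℝ) ≤ B := by exact_mod_cast hB
  -- the connecting path
  have hex : ∀ s : Fin n → Step d, ∀ t : Fin m → Step d, ∃ r : Fin k → Step d,
      Real.exp (-(-Real.log c * (d * (2 * B) + n * m / (B : ℝ) ^ 2))) * (W g s * W g t) ≤
        W g (Fin.append (Fin.append s r) t) := by
    intro s t
    obtain ⟨w, hw, hov⟩ := exists_shift s t hB
    obtain ⟨r, hr⟩ := exists_conn hw
    refine ⟨r, le_trans ?_ (W_triple h s r t)⟩
    refine mul_le_mul_of_nonneg_right ?_ (mul_nonneg (W_pos h s).le (W_pos h t).le)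
    rw [hr]
    set o := ovl s t (S s n + fun i => 2 * (w i : ℤ)) with ho
    have h1 : (o : ℝ) ≤ n * m / (B : ℝ) ^ 2 := by
      rw [le_div_iff₀ (by positivity)]
      have h2 : (o : ℝ) * (B : ℝ) ^ d ≤ n * m := by exact_mod_cast hov
      have h3 : (B : ℝ) ^ 2 ≤ (B : ℝ) ^ d := pow_le_pow_right₀ hB1 hd
      have h4 : (0 : ℝ) ≤ o := Nat.cast_nonneg _
      nlinarith
    have h5 : c ^ (k + o) = Real.exp (-(-Real.log c * ((k : ℝ) + o))) := by
      have : c ^ (k + o) = Real.exp (Real.log c) ^ (k + o) := by rw [Real.exp_log h.cpos]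
      rw [this, ← Real.exp_nat_mul]
      congr 1
      push_cast
      ring
    rw [h5]
    apply Real.exp_le_exp.2
    have h6 : Real.log c ≤ 0 := Real.log_nonpos h.cpos.le h.cle
    have h7 : (k : ℝ) = d * (2 * B) := by rw [hk]; push_cast; ring
    rw [h7]
    nlinarith
  choose R hR using hex
  have hinj : Function.Injective (fun p : (Fin n → Step d) × (Fin m → Step d) =>
      Fin.append (Fin.append p.1 (R p.1 p.2)) p.2) := by
    rintro ⟨s, t⟩ ⟨s', t'⟩ hst
    simp only at hst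
    have h1 : t = t' := append_inj' hst
    have h2 : s = s' := append_inj (append_inj hst)
    rw [h1, h2]
  have hsum : ∑ p : (Fin n → Step d) × (Fin m → Step d),
      W g (Fin.append (Fin.append p.1 (R p.1 p.2)) p.2) ≤ ∑ u : Fin (n + k + m) → Step d, W g u := by
    rw [← Finset.sum_image (s := Finset.univ) (f := fun u => W g u)
      (g := fun p : (Fin n → Step d) × (Fin m → Step d) =>
      Fin.append (Fin.append p.1 (R p.1 p.2)) p.2) (fun x _ y _ hxy => hinj hxy)]
    exact Finset.sum_le_sum_of_subset_of_nonneg (Finset.subset_univ _)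
      fun u _ _ => (W_pos h u).le
  have hlow : Real.exp (-(-Real.log c * (d * (2 * B) + n * m / (B : ℝ) ^ 2))) *
      ((∑ s : Fin n → Step d, W g s) * (∑ t : Fin m → Step d, W g t)) ≤
      ∑ p : (Fin n → Step d) × (Fin m → Step d),
      W g (Fin.append (Fin.append p.1 (R p.1 p.2)) p.2) := by
    rw [Finset.sum_mul_sum, ← Finset.sum_product', Finset.mul_sum, Finset.univ_product_univ]
    exact Finset.sum_le_sum fun p _ => hR p.1 p.2
  unfold Zg
  have hd0 : (0 : ℝ) < 2 * d := by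
    have : (0 : ℝ) < d := by exact_mod_cast (by omega : 0 < d)
    linarith
  rw [le_div_iff₀ (by positivity)]
  refine le_trans (le_of_eq ?_) (hlow.trans hsum)
  rw [pow_add, pow_add, inv_pow]
  field_simp

lemma Zg_pos {d : ℕ} (hd : 2 ≤ d) {g : ℕ → ℝ} {c : ℝ} (h : Good g c) (n : ℕ) : 0 < Zg g d n := by
  have hd0 : (0 : ℝ) < 2 * d := by
    have : (0 : ℝ) < d := by exact_mod_cast (by omega : 0 < d)
    linarith
  have : Nonempty (Fin n → Step d) := ⟨fun _ => (⟨0, by omega⟩, true)⟩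
  exact div_pos (Finset.sum_pos (fun s _ => W_pos h s) Finset.univ_nonempty) (by positivity)

lemma card_paths (d n : ℕ) : (Fintype.card (Fin n → Step d) : ℝ) = (2 * d : ℝ) ^ n := by
  simp [mul_comm]

lemma Zg_le_one {d : ℕ} (hd : 2 ≤ d) {g : ℕ → ℝ} {c : ℝ} (h : Good g c) (n : ℕ) :
    Zg g d n ≤ 1 := by
  have hd0 : (0 : ℝ) < 2 * d := by
    have : (0 : ℝ) < d := by exact_mod_cast (by omega : 0 < d)
    linarith
  unfold Zg
  rw [div_le_one (by positivity), ← card_paths d n]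
  calc ∑ s : Fin n → Step d, W g s ≤ ∑ s : Fin n → Step d, 1 :=
        Finset.sum_le_sum fun s _ => W_le_one h s
    _ = _ := by simp

lemma Zg_ge {d : ℕ} (hd : 2 ≤ d) {g : ℕ → ℝ} {c : ℝ} (h : Good g c) (n : ℕ) :
    c ^ n ≤ Zg g d n := by
  have hd0 : (0 : ℝ) < 2 * d := by
    have : (0 : ℝ) < d := by exact_mod_cast (by omega : 0 < d)
    linarith
  unfold Zg
  rw [le_div_iff₀ (by positivity), ← card_paths d n]
  calc c ^ n * (Fintype.card (Fin n → Step d) : ℝ) = ∑ s : Fin n → Step d, c ^ n := by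
        simp [mul_comm]
    _ ≤ _ := Finset.sum_le_sum fun s _ => W_ge h s

/-! ## Charges -/

/-- admissible charge laws -/
structure Admissible (μ : Measure ℝ) : Prop where
  prob : IsProbabilityMeasure μ
  exp_moment : ∀ δ : ℝ, Integrable (fun x => Real.exp (δ * x)) μ
  mean : ∫ x, x ∂μ = 0
  variance : ∫ x, x ^ 2 ∂μ = 1

/-- the tilted charge law `P^δ` (one-site marginal) -/
noncomputable def tilt (μ : Measure ℝ) (δ : ℝ) : Measure ℝ := μ.tilted fun x => δ * x

/-- `g_{δ,β}(ℓ) = E^δ[exp(-β Ω_ℓ²)]` -/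
noncomputable def gg (μ : Measure ℝ) (δ β : ℝ) (l : ℕ) : ℝ :=
  ∫ ω : Fin l → ℝ, Real.exp (-β * (∑ i, ω i) ^ 2) ∂(Measure.pi fun _ => tilt μ δ)

lemma tilt_prob {μ : Measure ℝ} (h : Admissible μ) (δ : ℝ) : IsProbabilityMeasure (tilt μ δ) := by
  have := h.prob
  exact isProbabilityMeasure_tilted (h.exp_moment δ)

lemma charge_int {μ : Measure ℝ} (h : Admissible μ) : Integrable (fun x : ℝ => x ^ 2) μ := by
  by_contra hc
  have := h.variance
  rw [integral_undef hc] at this
  norm_num at this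

lemma charge_int1 {μ : Measure ℝ} (h : Admissible μ) : Integrable (fun x : ℝ => x) μ := by
  have := h.prob
  have h2 := (charge_int h).add (integrable_const (1 : ℝ))
  refine h2.mono' measurable_id.aestronglyMeasurable (Eventually.of_forall fun x => ?_)
  simp only [Pi.add_apply, Real.norm_eq_abs]
  have : |x| ^ 2 = x ^ 2 := sq_abs x
  nlinarith [sq_nonneg (|x| - 1), abs_nonneg x]

lemma neg_mass {μ : Measure ℝ} (h : Admissible μ) (s : ℝ) (hs : s = 1 ∨ s = -1) :
    μ {x | s * x ≤ 0} ≠ 0 := by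
  intro h0
  have := h.prob
  have hs2 : s ≠ 0 := by rcases hs with h | h <;> rw [h] <;> norm_num
  have hae : ∀ᵐ x ∂μ, 0 ≤ s * x := by
    rw [ae_iff]
    exact measure_mono_null (fun x hx => (le_of_lt (not_le.1 hx) : s * x ≤ 0)) h0
  have h1 : ∫ x, s * x ∂μ = 0 := by rw [integral_const_mul, h.mean, mul_zero]
  have h2 := (integral_eq_zero_iff_of_nonneg_ae hae ((charge_int1 h).const_mul s)).1 h1
  have h3 : ∫ x, x ^ 2 ∂μ = 0 := by
    rw [integral_eq_zero_of_ae]
    filter_upwards [h2] with x hx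
    have hx' : s * x = 0 := hx
    have : x = 0 := by
      rcases mul_eq_zero.1 hx' with h | h
      · exact absurd h hs2
      · exact h
    rw [this]; simp
  rw [h.variance] at h3
  norm_num at h3

lemma tilt_mass {μ : Measure ℝ} (h : Admissible μ) (δ s : ℝ) (hs : s = 1 ∨ s = -1) :
    ∃ A : ℕ, 0 < (tilt μ δ).real {x | s * x ≤ 0 ∧ |x| ≤ A} := by
  have hp := h.prob
  have hp2 := tilt_prob h δ
  by_contra hcon
  push Not at hcon
  have h1 : ∀ A : ℕ, tilt μ δ {x | s * x ≤ 0 ∧ |x| ≤ A} = 0 := by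
    intro A
    have h2 := le_antisymm (hcon A) measureReal_nonneg
    rwa [measureReal_eq_zero_iff] at h2
  have h2 : tilt μ δ {x | s * x ≤ 0} = 0 := by
    have h3 : {x : ℝ | s * x ≤ 0} ⊆ ⋃ A : ℕ, {x | s * x ≤ 0 ∧ |x| ≤ A} := by
      intro x hx
      obtain ⟨A, hA⟩ := exists_nat_ge |x|
      exact Set.mem_iUnion.2 ⟨A, hx, hA⟩
    exact measure_mono_null h3 (measure_iUnion_null h1)
  exact neg_mass h s hs ((absolutelyContinuous_tilted (h.exp_moment δ)) h2)

lemma exp_le_one' {β : ℝ} (hβ : 0 < β) (y : ℝ) : Real.exp (-β * y ^ 2) ≤ 1 := by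
  rw [Real.exp_le_one_iff]
  nlinarith [sq_nonneg y]

/-- one more charge costs at most a constant factor -/
lemma one_more {μ : Measure ℝ} (h : Admissible μ) (δ : ℝ) {β : ℝ} (hβ : 0 < β) :
    ∃ c : ℝ, 0 < c ∧ c ≤ 1 ∧ ∀ y : ℝ, c * Real.exp (-β * y ^ 2) ≤
      ∫ x, Real.exp (-β * (x + y) ^ 2) ∂(tilt μ δ) := by
  have hp2 := tilt_prob h δ
  obtain ⟨A1, hA1⟩ := tilt_mass h δ 1 (Or.inl rfl)
  obtain ⟨A2, hA2⟩ := tilt_mass h δ (-1) (Or.inr rfl)
  set p1 := (tilt μ δ).real {x | 1 * x ≤ 0 ∧ |x| ≤ A1} with hp1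
  set p2 := (tilt μ δ).real {x | (-1) * x ≤ 0 ∧ |x| ≤ A2} with hp2'
  set A : ℝ := max A1 A2 with hA
  have hA0 : 0 ≤ A := le_max_of_le_left (Nat.cast_nonneg _)
  refine ⟨min p1 p2 * Real.exp (-β * A ^ 2), by have := lt_min hA1 hA2; positivity, ?_, ?_⟩
  · have h1 : min p1 p2 ≤ 1 := (min_le_left _ _).trans measureReal_le_one
    have h2 : 0 ≤ min p1 p2 := le_min measureReal_nonneg measureReal_nonneg
    have h3 := exp_le_one' hβ A
    have h4 := Real.exp_pos (-β * A ^ 2)
    nlinarith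
  · intro y
    have hint : Integrable (fun x => Real.exp (-β * (x + y) ^ 2)) (tilt μ δ) := by
      refine Integrable.of_bound (by fun_prop) 1 (Eventually.of_forall fun x => ?_)
      rw [Real.norm_eq_abs, abs_of_pos (Real.exp_pos _)]
      exact exp_le_one' hβ _
    -- generic lower bound on a set
    have hgen : ∀ (E : Set ℝ), MeasurableSet E → (∀ x ∈ E, (x + y) ^ 2 ≤ y ^ 2 + A ^ 2) →
        (tilt μ δ).real E * (Real.exp (-β * A ^ 2) * Real.exp (-β * y ^ 2)) ≤
          ∫ x, Real.exp (-β * (x + y) ^ 2) ∂(tilt μ δ) := by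
      intro E hE hx
      calc (tilt μ δ).real E * (Real.exp (-β * A ^ 2) * Real.exp (-β * y ^ 2))
          = ∫ x in E, (Real.exp (-β * A ^ 2) * Real.exp (-β * y ^ 2)) ∂(tilt μ δ) := by
            rw [setIntegral_const, smul_eq_mul]
        _ ≤ ∫ x in E, Real.exp (-β * (x + y) ^ 2) ∂(tilt μ δ) := by
            refine setIntegral_mono_on (integrable_const _).integrableOn hint.integrableOn hE
              fun x hxE => ?_
            rw [← Real.exp_add]
            apply Real.exp_le_exp.2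
            have := hx x hxE
            nlinarith
        _ ≤ _ := setIntegral_le_integral hint (Eventually.of_forall fun x => (Real.exp_pos _).le)
    have hmeas : ∀ (s : ℝ) (B : ℕ), MeasurableSet {x : ℝ | s * x ≤ 0 ∧ |x| ≤ B} := by
      intro s B
      have e : {x : ℝ | s * x ≤ 0 ∧ |x| ≤ B} = {x : ℝ | s * x ≤ 0} ∩ {x : ℝ | |x| ≤ B} := rfl
      rw [e]
      exact (isClosed_le (by fun_prop : Continuous fun x : ℝ => s * x)
        continuous_const).measurableSet.inter
        (isClosed_le (by fun_prop : Continuous fun x : ℝ => |x|) continuous_const).measurableSet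
    have hm1 := hmeas 1 A1
    have hm2 := hmeas (-1) A2
    have hpos : 0 ≤ Real.exp (-β * A ^ 2) * Real.exp (-β * y ^ 2) := by positivity
    rw [mul_assoc]
    rcases le_total 0 y with hy | hy
    · refine le_trans (mul_le_mul_of_nonneg_right (min_le_left _ _) hpos)
        (hgen _ hm1 fun x hx => ?_)
      have h1 : x ≤ 0 := by simpa using hx.1
      have h2 : |x| ≤ A := hx.2.trans (le_max_left _ _)
      have h3 := (abs_le.1 h2).1
      nlinarith
    · refine le_trans (mul_le_mul_of_nonneg_right (min_le_right _ _) hpos)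
        (hgen _ hm2 fun x hx => ?_)
      have h1 : 0 ≤ x := by have := hx.1; linarith
      have h2 : |x| ≤ A := hx.2.trans (le_max_right _ _)
      have h3 := (abs_le.1 h2).2
      nlinarith

lemma gg_zero (μ : Measure ℝ) (δ β : ℝ) : gg μ δ β 0 = 1 := by
  unfold gg
  rw [integral_congr_ae (g := fun _ => (1 : ℝ)) (Eventually.of_forall fun ω => by simp),
    Measure.pi_of_empty]
  simp

lemma gg_int {μ : Measure ℝ} (h : Admissible μ) (δ : ℝ) {β : ℝ} (hβ : 0 < β) (l : ℕ) :
    Integrable (fun ω : Fin l → ℝ => Real.exp (-β * (∑ i, ω i) ^ 2))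
      (Measure.pi fun _ => tilt μ δ) := by
  have hp2 := tilt_prob h δ
  refine Integrable.of_bound (by fun_prop) 1 (Eventually.of_forall fun x => ?_)
  rw [Real.norm_eq_abs, abs_of_pos (Real.exp_pos _)]
  exact exp_le_one' hβ _

lemma gg_succ {μ : Measure ℝ} (h : Admissible μ) (δ : ℝ) {β : ℝ} (hβ : 0 < β) (l : ℕ) :
    gg μ δ β (l + 1) = ∫ ω : Fin l → ℝ, ∫ x, Real.exp (-β * (x + ∑ i, ω i) ^ 2) ∂(tilt μ δ)
      ∂(Measure.pi fun _ => tilt μ δ) := by
  have hp2 := tilt_prob h δ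
  unfold gg
  have hmp := measurePreserving_piFinSuccAbove (fun _ : Fin (l + 1) => tilt μ δ) 0
  have h1 := hmp.integral_comp' (g := fun p : ℝ × (Fin l → ℝ) =>
    Real.exp (-β * (p.1 + ∑ i, p.2 i) ^ 2))
  have h2 : ∫ ω : Fin (l + 1) → ℝ, Real.exp (-β * (∑ i, ω i) ^ 2)
      ∂(Measure.pi fun _ => tilt μ δ) = ∫ p : ℝ × (Fin l → ℝ),
      Real.exp (-β * (p.1 + ∑ i, p.2 i) ^ 2) ∂((tilt μ δ).prod (Measure.pi fun _ => tilt μ δ)) := by
    rw [← h1]
    congr 1
    funext ω
    rw [Fin.sum_univ_succ]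
    rfl
  rw [h2, integral_prod_symm]
  refine Integrable.of_bound (by fun_prop) 1 (Eventually.of_forall fun x => ?_)
  rw [Real.norm_eq_abs, abs_of_pos (Real.exp_pos _)]
  exact exp_le_one' hβ _

lemma gg_good {μ : Measure ℝ} (h : Admissible μ) (δ : ℝ) {β : ℝ} (hβ : 0 < β) :
    ∃ c, Good (gg μ δ β) c := by
  have hp2 := tilt_prob h δ
  obtain ⟨c, hc0, hc1, hc⟩ := one_more h δ hβ
  have hstep : ∀ l, c * gg μ δ β l ≤ gg μ δ β (l + 1) := by
    intro l
    rw [gg_succ h δ hβ]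
    unfold gg
    rw [← integral_const_mul]
    refine integral_mono ((gg_int h δ hβ l).const_mul c) ?_ fun ω => hc _
    have : Integrable (fun p : ℝ × (Fin l → ℝ) => Real.exp (-β * (p.1 + ∑ i, p.2 i) ^ 2))
        ((tilt μ δ).prod (Measure.pi fun _ => tilt μ δ)) := by
      refine Integrable.of_bound (by fun_prop) 1 (Eventually.of_forall fun x => ?_)
      rw [Real.norm_eq_abs, abs_of_pos (Real.exp_pos _)]
      exact exp_le_one' hβ _
    exact this.integral_prod_right
  refine ⟨c, gg_zero μ δ β, fun l => ?_, fun l => ?_, hstep, hc0, hc1⟩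
  · unfold gg
    calc ∫ ω : Fin l → ℝ, Real.exp (-β * (∑ i, ω i) ^ 2) ∂(Measure.pi fun _ => tilt μ δ)
        ≤ ∫ ω : Fin l → ℝ, (1 : ℝ) ∂(Measure.pi fun _ => tilt μ δ) :=
          integral_mono (gg_int h δ hβ l) (integrable_const _) fun ω => exp_le_one' hβ _
      _ = 1 := by simp
  · induction l with
    | zero => rw [gg_zero]; norm_num
    | succ l ih => exact lt_of_lt_of_le (mul_pos hc0 ih) (hstep l)

/-! ## The theorem -/

/-- the annealed partition function `Z_n^{δ,β} = E[∏_x g_{δ,β}(ℓ_n(x))]` -/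
noncomputable def Z (μ : Measure ℝ) (δ β : ℝ) (d n : ℕ) : ℝ := Zg (gg μ δ β) d n

lemma log_super {d : ℕ} (hd : 2 ≤ d) {g : ℕ → ℝ} {c : ℝ} (h : Good g c) :
    ∃ C : ℝ, 0 < C ∧ (∀ n, -Real.log (Zg g d n) ≤ C * n) ∧
      ∀ n m B : ℕ, 1 ≤ B → -Real.log (Zg g d (n + m + 2 * d * B)) ≤
        -Real.log (Zg g d n) + -Real.log (Zg g d m) + C * (B + n * m / (B : ℝ) ^ 2) := by
  have hd1 : (2 : ℝ) ≤ d := by exact_mod_cast hd
  have hlc : 0 ≤ -Real.log c := by
    have := Real.log_nonpos h.cpos.le h.cle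
    linarith
  have hld : 0 ≤ Real.log (2 * d) := Real.log_nonneg (by linarith)
  set C := -Real.log c * (2 * d + 1) + 2 * d * Real.log (2 * d) + 1 with hC
  have hC1 : -Real.log c ≤ C := by rw [hC]; nlinarith [mul_nonneg (show (0 : ℝ) ≤ d by linarith) hld]
  have hC2 : -Real.log c * (2 * d) + 2 * d * Real.log (2 * d) ≤ C := by rw [hC]; linarith
  refine ⟨C, by rw [hC]; positivity, fun n => ?_, fun n m B hB => ?_⟩
  · have h1 := Real.log_le_log (pow_pos h.cpos n) (Zg_ge hd h n)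
    rw [Real.log_pow] at h1
    have h2 : (0 : ℝ) ≤ n := Nat.cast_nonneg n
    nlinarith
  · have h1 := Z_super hd h n m hB
    have hn := Zg_pos hd h n
    have hm := Zg_pos hd h m
    have hd0 : (0 : ℝ) < 2 * d := by linarith
    have h2 := Real.log_le_log (by positivity) h1
    rw [Real.log_mul (by positivity) (by positivity), Real.log_mul (by positivity) (by positivity),
      Real.log_mul hn.ne' hm.ne', Real.log_exp, Real.log_pow, Real.log_inv] at h2
    have h3 : n + m + 2 * d * B = n + d * (2 * B) + m := by ring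
    rw [h3]
    have hB0 : (0 : ℝ) ≤ B := Nat.cast_nonneg B
    have hq : (0 : ℝ) ≤ n * m / (B : ℝ) ^ 2 := by positivity
    push_cast at h2
    have h4 : -Real.log c * (d * (2 * B) + n * m / (B : ℝ) ^ 2) + d * (2 * B) * Real.log (2 * d)
        ≤ C * (B + n * m / (B : ℝ) ^ 2) := by
      have h5 : -Real.log c * (d * (2 * B) + n * m / (B : ℝ) ^ 2) + d * (2 * B) * Real.log (2 * d)
        = (-Real.log c * (2 * d) + 2 * d * Real.log (2 * d)) * B +
          -Real.log c * (n * m / (B : ℝ) ^ 2) := by ring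
      rw [h5, mul_add]
      exact add_le_add (mul_le_mul_of_nonneg_right hC2 hB0) (mul_le_mul_of_nonneg_right hC1 hq)
    linarith

/-- **Main theorem.** For every `d ≥ 2`, every admissible charge law and all `δ ≥ 0`, `β > 0` the
annealed free energy per monomer exists as a limit. -/
theorem result (d : ℕ) (hd : 2 ≤ d) (μ : Measure ℝ) (hμ : Admissible μ) (δ β : ℝ) (_hδ : 0 ≤ δ)
    (hβ : 0 < β) :
    ∃ F : ℝ, Tendsto (fun n : ℕ => Real.log (Z μ δ β d n) / n) atTop (𝓝 F) := by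
  obtain ⟨c, hc⟩ := gg_good hμ δ hβ
  obtain ⟨C, hC, h1, h2⟩ := log_super hd hc
  obtain ⟨l, hl⟩ := fekete (u := fun n => -Real.log (Zg (gg μ δ β) d n)) (K := 2 * d) hC
    (fun n => by
      have := Real.log_nonpos (Zg_pos hd hc n).le (Zg_le_one hd hc n)
      linarith) h1 h2
  refine ⟨-l, ?_⟩
  have := hl.neg
  refine this.congr fun n => ?_
  unfold Z
  ring

end Pool.Agent.Results.MP_8e4414_pr.FreeEnergyLimit
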